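import Pool.Agent.Helper29.OV.Base1

/-!
# MP_81e84b_lc, project OV, packet LIM
-/

set_option autoImplicit false

namespace Pool.Agent.Helper36.OV

open Pool.Agent.Helper29.OV

/-- finitely many steps, one after the other -/
theorem iter {𝓜 : Set (Set ℕ)} {ι : Type} [Finite ι] (G : ι → Set ℕ → Prop)
    (mono : ∀ i (H H' : Set ℕ), H' ⊆ H → G i H → G i H')
    (step : ∀ i (H₀ : Set ℕ), H₀ ∈ 𝓜 → H₀.Infinite → ∃ H ⊆ H₀, H ∈ 𝓜 ∧ H.Infinite ∧ G i H)
    (H₀ : Set ℕ) (h₀ : H₀ ∈ 𝓜) (hi : H₀.Infinite) :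
    ∃ H ⊆ H₀, H ∈ 𝓜 ∧ H.Infinite ∧ ∀ i, G i H := by
  classical
  let _ := Fintype.ofFinite ι
  have key : ∀ S : Finset ι, ∃ H ⊆ H₀, H ∈ 𝓜 ∧ H.Infinite ∧ ∀ i ∈ S, G i H := by
    intro S
    induction S using Finset.induction_on with
    | empty => exact ⟨H₀, subset_rfl, h₀, hi, fun i hi => absurd hi (Finset.notMem_empty i)⟩
    | insert a S _ ih =>
      obtain ⟨H1, h1, h2, h3, h4⟩ := ih
      obtain ⟨H2, g1, g2, g3, g4⟩ := step a H1 h2 h3
      refine ⟨H2, g1.trans h1, g2, g3, fun i hi => ?_⟩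
      rcases Finset.mem_insert.1 hi with rfl | hi
      · exact g4
      · exact mono i H1 H2 g1 (h4 i hi)
  obtain ⟨H, h1, h2, h3, h4⟩ := key Finset.univ
  exact ⟨H, h1, h2, h3, fun i => h4 i (Finset.mem_univ i)⟩

/-- the first list -/
def AL (K : ℕ) (z : List ℕ) : List ℕ := (List.range (K + 1)).map fun i => z.getD i 0

/-- the second list -/
def BL (K : ℕ) (z : List ℕ) : List ℕ :=
  z.getD 0 0 :: (List.range K).map fun i => z.getD (K + 1 + i) 0

theorem AL_prim (K : ℕ) : Primrec (AL K) :=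
  Primrec.list_map (Primrec.const (List.range (K + 1))) ((Primrec.list_getD 0).comp
    Primrec.fst Primrec.snd)

theorem BL_prim (K : ℕ) : Primrec (BL K) := by
  refine Primrec.list_cons.comp ?_ ?_
  · exact (Primrec.list_getD 0).comp Primrec.id (Primrec.const 0)
  · refine Primrec.list_map (Primrec.const (List.range K)) ?_
    exact (Primrec.list_getD 0).comp Primrec.fst
      (Primrec.nat_add.comp (Primrec.const (K + 1)) Primrec.snd)

theorem AL_eq {K h : ℕ} {q q' : List ℕ} (hq : q.length = K) : AL K (h :: (q ++ q')) = h :: q := by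
  unfold AL
  refine List.ext_getElem (by simp [hq]) fun i h1 h2 => ?_
  rw [List.getElem_map, List.getElem_range]
  rcases i with _ | i
  · simp
  · have h3 : i < q.length := by simpa using h2
    rw [List.getD_cons_succ, List.getD_append _ _ _ _ h3, List.getD_eq_getElem _ _ h3]
    simp

theorem BL_eq {K h : ℕ} {q q' : List ℕ} (hq : q.length = K) (hq' : q'.length = K) :
    BL K (h :: (q ++ q')) = h :: q' := by
  unfold BL
  refine List.ext_getElem (by simp [hq']) fun i h1 h2 => ?_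
  rcases i with _ | i
  · simp
  · have h3 : i < q'.length := by simpa using h2
    rw [List.getElem_cons_succ, List.getElem_map, List.getElem_range, List.getElem_cons_succ]
    have h4 : K + 1 + i = (K + i) + 1 := by omega
    rw [h4, List.getD_cons_succ, List.getD_append_right _ _ _ _ (by omega), hq,
      Nat.add_sub_cancel_left, List.getD_eq_getElem _ _ h3]

/-- `P p (h :: q)` does not depend on `q` -/
def Gd (K : ℕ) (P : ℕ → List ℕ → Prop) (H : Set ℕ) : Prop :=
  ∀ h ∈ H, ∀ p ≤ h, ∀ q q' : List ℕ, Inc (H ∩ {x | h < x}) K q → Inc (H ∩ {x | h < x}) K q' →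
    (P p (h :: q) ↔ P p (h :: q'))

theorem Inc.mono {H H' : Set ℕ} (hs : H' ⊆ H) {K : ℕ} {l : List ℕ} (h : Inc H' K l) :
    Inc H K l := ⟨h.1, h.2.1, fun x hx => hs (h.2.2 x hx)⟩

theorem Gd.mono {K : ℕ} {P : ℕ → List ℕ → Prop} {H H' : Set ℕ} (hs : H' ⊆ H) (h : Gd K P H) :
    Gd K P H' := fun x hx p hp q q' hq hq' =>
  h x (hs hx) p hp q q' (Inc.mono (Set.inter_subset_inter_left _ hs) hq)
    (Inc.mono (Set.inter_subset_inter_left _ hs) hq')

/-- one block of an increasing enumeration -/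
theorem block {H : Set ℕ} (a : ℕ → ℕ) (ha : StrictMono a) (haH : ∀ n, a n ∈ H) (K n h : ℕ)
    (hn : h < a n) : Inc (H ∩ {x | h < x}) K ((List.range K).map fun i => a (n + i)) := by
  refine ⟨by simp, ?_, ?_⟩
  · rw [List.pairwise_map]
    refine List.pairwise_lt_range.imp fun {i j} hij => ?_
    exact ha (by omega)
  · intro x hx
    obtain ⟨i, _, rfl⟩ := List.mem_map.1 hx
    exact ⟨haH _, lt_of_lt_of_le hn (ha.monotone (by omega))⟩

theorem step1 {𝓜 : Set (Set ℕ)} (h : Closed 𝓜) (K : ℕ) (P : ℕ → List ℕ → Prop)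
    (hP : D 𝓜 fun q : ℕ × List ℕ => P q.1 q.2) (H₀ : Set ℕ) (h₀ : H₀ ∈ 𝓜) (hi : H₀.Infinite) :
    ∃ H ⊆ H₀, H ∈ 𝓜 ∧ H.Infinite ∧ Gd K P H := by
  have hS : D 𝓜 fun z : List ℕ => ∀ p, p ≤ z.getD 0 0 → (P p (AL K z) ↔ P p (BL K z)) := by
    refine D.all h (P := fun z p => p ≤ z.getD 0 0 → (P p (AL K z) ↔ P p (BL K z))) ?_
    refine D.imp h (D.of_primrec h ?_) (D.iff h ?_ ?_)
    · exact Primrec.nat_le.comp Primrec.snd
        ((Primrec.list_getD 0).comp Primrec.fst (Primrec.const 0))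
    · exact D.comp h hP (f := fun q : List ℕ × ℕ => (q.2, AL K q.1))
        (Primrec.snd.pair ((AL_prim K).comp Primrec.fst))
    · exact D.comp h hP (f := fun q : List ℕ × ℕ => (q.2, BL K q.1))
        (Primrec.snd.pair ((BL_prim K).comp Primrec.fst))
  obtain ⟨H, hH, hM, hInf, hR⟩ := ramsey h (2 * K + 1) H₀ h₀ hi _ hS
  refine ⟨H, hH, hM, hInf, ?_⟩
  set a := Nat.nth (fun x => x ∈ H) with ha
  have hmono : StrictMono a := Nat.nth_strictMono hInf
  have haH : ∀ n, a n ∈ H := fun n => Nat.nth_mem_of_infinite hInf n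
  -- the lists of length `2 K + 1`
  have hz : ∀ x ∈ H, ∀ q q' : List ℕ, Inc (H ∩ {y | x < y}) K q → Inc (H ∩ {y | x < y}) K q' →
      (∀ u ∈ q, ∀ v ∈ q', u < v) → Inc H (2 * K + 1) (x :: (q ++ q')) := by
    intro x hx q q' hq hq' hqq
    refine ⟨?_, ?_, ?_⟩
    · simp only [List.length_cons, List.length_append, hq.1, hq'.1]
      omega
    · rw [List.pairwise_cons, List.pairwise_append]
      refine ⟨fun y hy => ?_, hq.2.1, hq'.2.1, hqq⟩
      rcases List.mem_append.1 hy with hy | hy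
      · exact (hq.2.2 y hy).2
      · exact (hq'.2.2 y hy).2
    · intro y hy
      rcases List.mem_cons.1 hy with rfl | hy
      · exact hx
      · rcases List.mem_append.1 hy with hy | hy
        · exact (hq.2.2 y hy).1
        · exact (hq'.2.2 y hy).1
  rcases hR with hR | hR
  · intro x hx p hp q q' hq hq'
    set S := x + q.sum + q'.sum + 1 with hSdef
    have hxS : x < a S := by
      have := hmono.le_apply (x := S)
      omega
    set q'' := (List.range K).map fun i => a (S + i) with hq''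
    have hb : Inc (H ∩ {y | x < y}) K q'' := block a hmono haH K S x hxS
    have hlt : ∀ v ∈ q'', S ≤ v := by
      intro v hv
      obtain ⟨i, _, rfl⟩ := List.mem_map.1 hv
      have := hmono.le_apply (x := S + i)
      omega
    have h1 : ∀ u ∈ q, ∀ v ∈ q'', u < v := by
      intro u hu v hv
      have h2 := List.le_sum_of_mem hu
      have h3 := hlt v hv
      omega
    have h1' : ∀ u ∈ q', ∀ v ∈ q'', u < v := by
      intro u hu v hv
      have h2 := List.le_sum_of_mem hu
      have h3 := hlt v hv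
      omega
    have e1 := hR _ (hz x hx q q'' hq hb h1) p (by simpa using hp)
    have e2 := hR _ (hz x hx q' q'' hq' hb h1') p (by simpa using hp)
    rw [AL_eq hq.1, BL_eq hq.1 hb.1] at e1
    rw [AL_eq hq'.1, BL_eq hq'.1 hb.1] at e2
    exact e1.trans e2.symm
  · exfalso
    let T : ℕ → Fin (a 0 + 1) → Prop := fun t p =>
      P p (a 0 :: (List.range K).map fun i => a (1 + t * K + i))
    obtain ⟨t, t', hne, heq⟩ := Finite.exists_ne_map_eq_of_infinite T
    have key : ∀ t t' : ℕ, t < t' → T t = T t' → False := by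
      intro t t' hlt heq
      have hb : ∀ t, Inc (H ∩ {y | a 0 < y}) K ((List.range K).map fun i => a (1 + t * K + i)) :=
        fun t => block a hmono haH K (1 + t * K) (a 0) (hmono (by omega))
      have h1 : ∀ u ∈ (List.range K).map (fun i => a (1 + t * K + i)),
          ∀ v ∈ (List.range K).map (fun i => a (1 + t' * K + i)), u < v := by
        intro u hu v hv
        obtain ⟨i, hi, rfl⟩ := List.mem_map.1 hu
        obtain ⟨j, _, rfl⟩ := List.mem_map.1 hv
        rw [List.mem_range] at hi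
        have h2 : (t + 1) * K ≤ t' * K := Nat.mul_le_mul_right K hlt
        have h3 : (t + 1) * K = t * K + K := by ring
        exact hmono (by omega)
      refine hR _ (hz (a 0) (haH 0) _ _ (hb t) (hb t') h1) ?_
      intro p hp
      rw [AL_eq (hb t).1, BL_eq (hb t).1 (hb t').1]
      have h4 : p < a 0 + 1 := by
        have : p ≤ a 0 := by simpa using hp
        omega
      exact iff_of_eq (congrFun heq ⟨p, h4⟩)
    rcases lt_or_gt_of_ne hne with hlt | hlt
    · exact key t t' hlt heq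
    · exact key t' t hlt heq.symm

theorem lift_list {n : ℕ} : ∀ (π : List ℕ), (∀ c ∈ π, c < n) →
    ∃ l : List (Fin n), l.map Fin.val = π
  | [], _ => ⟨[], rfl⟩
  | c :: π, h => by
    obtain ⟨l, hl⟩ := lift_list π fun d hd => h d (List.mem_cons_of_mem _ hd)
    exact ⟨⟨c, h c List.mem_cons_self⟩ :: l, by rw [List.map_cons, hl]⟩

theorem univ_mem {𝓜 : Set (Set ℕ)} (h : Closed 𝓜) : Set.univ ∈ 𝓜 := by
  have h1 := h.compl _ (h.inter _ h.zero _ (h.compl _ h.zero))
  rwa [Set.inter_compl_self, Set.compl_empty] at h1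

/-- **LIM**. -/
theorem exists_lim {𝓜 : Set (Set ℕ)} (h : Closed 𝓜) (R : ℕ → Set (List ℕ))
    (hR : ∀ i, D 𝓜 fun l : List ℕ => l ∈ R i) (s K : ℕ) :
    ∃ H : Set ℕ, H ∈ 𝓜 ∧ H.Infinite ∧ Lim R H s K ∧ Rep R H s K := by
  have hfin : Finite {l : List (Fin (K + 2)) | l.length ≤ K} :=
    (List.finite_length_le (Fin (K + 2)) K).to_subtype
  obtain ⟨H1, _, h1, h2, h3⟩ := iter (𝓜 := 𝓜)
    (ι := Fin s × {l : List (Fin (K + 2)) | l.length ≤ K})
    (fun j H => Gd K (fun p l => ((j.2.1.map Fin.val).map fun c => (p :: l).getD c 0) ∈ R j.1) H)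
    (fun j H H' hs hG => Gd.mono hs hG)
    (fun j H₀ h₀ hi => step1 h K _ (D.comp h (hR j.1)
      (f := fun q : ℕ × List ℕ => (j.2.1.map Fin.val).map fun c => (q.1 :: q.2).getD c 0)
      (Primrec.list_map (Primrec.const _) ((Primrec.list_getD 0).comp
        (Primrec.list_cons.comp (Primrec.fst.comp Primrec.fst) (Primrec.snd.comp Primrec.fst))
        Primrec.snd))) H₀ h₀ hi)
    Set.univ (univ_mem h) Set.infinite_univ
  obtain ⟨H2, g0, g1, g2, g3⟩ := iter (𝓜 := 𝓜) (ι := Fin s × Fin (K + 1))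
    (fun j H => (∀ L ∈ H, List.replicate (j.2 : ℕ) L ∈ R j.1) ∨
      (∀ L ∈ H, List.replicate (j.2 : ℕ) L ∉ R j.1))
    (fun j H H' hs hG => hG.imp (fun hG L hL => hG L (hs hL)) (fun hG L hL => hG L (hs hL)))
    (fun j H₀ h₀ hi => by
      have hD : D 𝓜 fun l : List ℕ => ((List.range (j.2 : ℕ)).map fun _ => l.getD 0 0) ∈ R j.1 :=
        D.comp h (hR j.1) (f := fun l : List ℕ => (List.range (j.2 : ℕ)).map fun _ => l.getD 0 0)
          (Primrec.list_map (Primrec.const _) ((Primrec.list_getD 0).comp Primrec.fst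
            (Primrec.const 0)))
      have hrep : ∀ L : ℕ, (List.range (j.2 : ℕ)).map (fun _ => [L].getD 0 0) =
          List.replicate (j.2 : ℕ) L := by
        intro L
        rw [List.map_const', List.length_range]
        rfl
      have hInc : ∀ (H : Set ℕ) (L : ℕ), L ∈ H → Inc H 1 [L] := by
        intro H L hL
        refine ⟨rfl, List.pairwise_singleton _ _, fun x hx => ?_⟩
        rw [List.mem_singleton.1 hx]
        exact hL
      obtain ⟨H, f1, f2, f3, f4⟩ := ramsey h 1 H₀ h₀ hi _ hD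
      refine ⟨H, f1, f2, f3, f4.imp (fun hG L hL => ?_) (fun hG L hL => ?_)⟩
      · have := hG [L] (hInc H L hL)
        rwa [hrep] at this
      · have := hG [L] (hInc H L hL)
        rwa [hrep] at this)
    H1 h1 h2
  refine ⟨H2, g1, g2, ?_, ?_⟩
  · intro i hi π hπ hc x hx p hp q q' hq hq'
    obtain ⟨l, hl⟩ := lift_list π hc
    have hlen : l.length ≤ K := by
      rw [← hl, List.length_map] at hπ
      exact hπ
    have h4 := Gd.mono g0 (h3 (⟨i, hi⟩, ⟨l, hlen⟩)) x hx p hp q q' hq hq'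
    simp only [hl] at h4
    exact h4
  · intro i hi k hk
    exact g3 (⟨i, hi⟩, ⟨k, by omega⟩)

end Pool.Agent.Helper36.OV
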