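import Pool.Agent.Helper7.OV.Goals2

/-!
# Packet OV-OPL (MP_57df85_nt): lengths and degrees under words of operators
-/

set_option autoImplicit false

open Finset

namespace Pool.Agent.Helper36.OV.OPL

open Pool.Agent.Helper7.OV

theorem t : S_OPL := by
  rintro ⟨lAdd, lMul, -, -, -, lD, -⟩ ⟨-, gMul, gAdd, gMono, gD, -, ⟨gE, lE⟩, gth⟩
  have step : ∀ (a : T3) (D H : ℕ), (∀ i, DL D D (a i) ∧ len (a i) ≤ H) →
      (∀ i, DL (D + 2) (D + 2) (op1 a i) ∧ len (op1 a i) ≤ (16 * D + 8) * H) ∧
      (∀ i, DL (D + 2) (D + 2) (op2 a i) ∧ len (op2 a i) ≤ (16 * D + 8) * H) := by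
    intro a D H ha
    refine ⟨fun i => ?_, fun i => ?_⟩
    · obtain ⟨h1, h2⟩ := ha i
      obtain ⟨t1, -, t2, -⟩ := gth i
      refine ⟨?_, ?_⟩
      · have e1 : DL (D + 2) (D + 2) (EE * D1 (a i)) := by
          have := gMul EE (D1 (a i)) 2 2 D D gE (gD _ _ _ h1).1
          rwa [add_comm 2 D] at this
        have e2 : DL (D + 2) (D + 2) (th1 i * a i) := by
          have := gMul (th1 i) (a i) 2 2 D D t1 h1
          rwa [add_comm 2 D] at this
        exact (gAdd _ _ _ _ e1 e2).1
      · calc len (op1 a i) ≤ len (EE * D1 (a i)) + len (th1 i * a i) := lAdd _ _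
          _ ≤ len EE * len (D1 (a i)) + len (th1 i) * len (a i) := add_le_add (lMul _ _) (lMul _ _)
          _ ≤ 16 * (D * H) + 8 * H := by
            refine add_le_add (Nat.mul_le_mul lE ?_) (Nat.mul_le_mul t2 h2)
            exact ((lD _ _ _ h1).1).trans (Nat.mul_le_mul_left _ h2)
          _ = (16 * D + 8) * H := by ring
    · obtain ⟨h1, h2⟩ := ha i
      obtain ⟨-, t1, -, t2⟩ := gth i
      refine ⟨?_, ?_⟩
      · have e1 : DL (D + 2) (D + 2) (EE * D2 (a i)) := by
          have := gMul EE (D2 (a i)) 2 2 D D gE (gD _ _ _ h1).2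
          rwa [add_comm 2 D] at this
        have e2 : DL (D + 2) (D + 2) (th2 i * a i) := by
          have := gMul (th2 i) (a i) 2 2 D D t1 h1
          rwa [add_comm 2 D] at this
        exact (gAdd _ _ _ _ e1 e2).1
      · calc len (op2 a i) ≤ len (EE * D2 (a i)) + len (th2 i * a i) := lAdd _ _
          _ ≤ len EE * len (D2 (a i)) + len (th2 i) * len (a i) := add_le_add (lMul _ _) (lMul _ _)
          _ ≤ 16 * (D * H) + 8 * H := by
            refine add_le_add (Nat.mul_le_mul lE ?_) (Nat.mul_le_mul t2 h2)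
            exact ((lD _ _ _ h1).2).trans (Nat.mul_le_mul_left _ h2)
          _ = (16 * D + 8) * H := by ring
  have main : ∀ (w : List Bool) (a : T3) (D H n : ℕ), (∀ i, DL D D (a i) ∧ len (a i) ≤ H) →
      w.length ≤ n → ∀ i, DL (D + 2 * n) (D + 2 * n) (opw w a i) ∧
        len (opw w a i) ≤ (16 * (D + 2 * n) + 8) ^ n * H := by
    intro w
    induction w with
    | nil =>
      intro a D H n ha _ i
      refine ⟨gMono _ _ _ _ _ (ha i).1 (by omega) (by omega), ?_⟩
      calc len (opw [] a i) = len (a i) := rfl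
        _ ≤ H := (ha i).2
        _ = 1 * H := (one_mul H).symm
        _ ≤ (16 * (D + 2 * n) + 8) ^ n * H := Nat.mul_le_mul_right _ (Nat.one_le_pow _ _ (by omega))
    | cons b w ih =>
      intro a D H n ha hn i
      obtain ⟨m, rfl⟩ : ∃ m, n = m + 1 := ⟨n - 1, by rw [List.length_cons] at hn; omega⟩
      have hm : w.length ≤ m := by rw [List.length_cons] at hn; omega
      have fin : ∀ a' : T3, (∀ i, DL (D + 2) (D + 2) (a' i) ∧ len (a' i) ≤ (16 * D + 8) * H) →
          DL (D + 2 * (m + 1)) (D + 2 * (m + 1)) (opw w a' i) ∧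
            len (opw w a' i) ≤ (16 * (D + 2 * (m + 1)) + 8) ^ (m + 1) * H := by
        intro a' ha'
        obtain ⟨h1, h2⟩ := ih a' (D + 2) ((16 * D + 8) * H) m ha' hm i
        have e : D + 2 + 2 * m = D + 2 * (m + 1) := by ring
        rw [e] at h1 h2
        refine ⟨h1, h2.trans ?_⟩
        rw [pow_succ, mul_assoc]
        exact Nat.mul_le_mul_left _ (Nat.mul_le_mul_right _ (by omega))
      cases b with
      | true => exact fin (op1 a) (step a D H ha).1
      | false => exact fin (op2 a) (step a D H ha).2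
  intro a D H n ha w hw i
  exact main w a D H n ha hw i

end Pool.Agent.Helper36.OV.OPL
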